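import Pool.Agent.NH44.BT.Defs

/-!
# The operator `D F + D* S F*`
-/

set_option autoImplicit false
set_option linter.unusedSectionVars false

open scoped ComplexConjugate InnerProductSpace

namespace Pool.Agent.NH44.BT.Abs

variable {H : Type} [NormedAddCommGroup H] [InnerProductSpace ℂ H] [CompleteSpace H]

/-- `S`, `D` are commuting isometries and `F` is the matrix unit `E_21`. -/
structure Dat (S D F : H →L[ℂ] H) : Prop where
  SS : ∀ x, S.adjoint (S x) = x
  DD : ∀ x, D.adjoint (D x) = x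
  SD : ∀ x, S (D x) = D (S x)
  FF : ∀ x, F (F x) = 0
  one : ∀ x, F (F.adjoint x) + F.adjoint (F x) = x
  FS : ∀ x, F (S x) = S (F x)
  FD : ∀ x, F (D x) = D (F x)
  GS : ∀ x, F.adjoint (S x) = S (F.adjoint x)
  GD : ∀ x, F.adjoint (D x) = D (F.adjoint x)

/-- The operator. -/
noncomputable def Top (S D F : H →L[ℂ] H) : H →L[ℂ] H :=
  D ∘L F + D.adjoint ∘L S ∘L F.adjoint

variable {S D F : H →L[ℂ] H}

theorem Top_apply (x : H) : Top S D F x = D (F x) + D.adjoint (S (F.adjoint x)) := rfl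

theorem adj_comm {A B : H →L[ℂ] H} (h : ∀ x, A (B x) = B (A x)) (x : H) :
    A.adjoint (B.adjoint x) = B.adjoint (A.adjoint x) := by
  refine ext_inner_left ℂ fun y => ?_
  rw [ContinuousLinearMap.adjoint_inner_right, ContinuousLinearMap.adjoint_inner_right,
    ContinuousLinearMap.adjoint_inner_right, ContinuousLinearMap.adjoint_inner_right, h]

theorem adj_comm' {A B : H →L[ℂ] H} (h : ∀ x, A.adjoint (B x) = B (A.adjoint x)) (x : H) :
    A (B.adjoint x) = B.adjoint (A x) := by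
  refine ext_inner_left ℂ fun y => ?_
  rw [ContinuousLinearMap.adjoint_inner_right, ← ContinuousLinearMap.adjoint_inner_left,
    ContinuousLinearMap.adjoint_inner_right, ← h, ContinuousLinearMap.adjoint_inner_left]

namespace Dat

variable (h : Dat S D F)
include h

theorem GG (x : H) : F.adjoint (F.adjoint x) = 0 := by
  refine ext_inner_left ℂ fun y => ?_
  rw [ContinuousLinearMap.adjoint_inner_right, ContinuousLinearMap.adjoint_inner_right, h.FF,
    inner_zero_left, inner_zero_right]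

/-- `F* D* = D* F*` -/
theorem Gd (x : H) : F.adjoint (D.adjoint x) = D.adjoint (F.adjoint x) := adj_comm h.FD x

/-- `F* S* = S* F*` -/
theorem Gs (x : H) : F.adjoint (S.adjoint x) = S.adjoint (F.adjoint x) := adj_comm h.FS x

/-- `F D* = D* F` -/
theorem Fd (x : H) : F (D.adjoint x) = D.adjoint (F x) := adj_comm' h.GD x

/-- `F S* = S* F` -/
theorem Fs (x : H) : F (S.adjoint x) = S.adjoint (F x) := adj_comm' h.GS x

theorem nS (x : H) : ‖S x‖ = ‖x‖ := by
  have : ⟪S x, S x⟫_ℂ = ⟪x, x⟫_ℂ := by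
    rw [← ContinuousLinearMap.adjoint_inner_right, h.SS]
  rw [inner_self_eq_norm_sq_to_K, inner_self_eq_norm_sq_to_K] at this
  have h2 : ‖S x‖ ^ 2 = ‖x‖ ^ 2 := by exact_mod_cast this
  exact (sq_eq_sq₀ (norm_nonneg _) (norm_nonneg _)).1 h2

theorem nD (x : H) : ‖D x‖ = ‖x‖ := by
  have : ⟪D x, D x⟫_ℂ = ⟪x, x⟫_ℂ := by
    rw [← ContinuousLinearMap.adjoint_inner_right, h.DD]
  rw [inner_self_eq_norm_sq_to_K, inner_self_eq_norm_sq_to_K] at this
  have h2 : ‖D x‖ ^ 2 = ‖x‖ ^ 2 := by exact_mod_cast this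
  exact (sq_eq_sq₀ (norm_nonneg _) (norm_nonneg _)).1 h2

theorem ns (x : H) : ‖S.adjoint x‖ ≤ ‖x‖ := by
  have h1 : ‖S.adjoint x‖ ^ 2 ≤ ‖x‖ * ‖S.adjoint x‖ := by
    have h2 : ⟪S.adjoint x, S.adjoint x⟫_ℂ = ⟪S (S.adjoint x), x⟫_ℂ := by
      rw [ContinuousLinearMap.adjoint_inner_right]
    have h3 : (‖S.adjoint x‖ ^ 2 : ℝ) = ‖⟪S.adjoint x, S.adjoint x⟫_ℂ‖ := by
      rw [inner_self_eq_norm_sq_to_K]; simp
    rw [h3, h2]
    refine (norm_inner_le_norm _ _).trans ?_
    rw [h.nS, mul_comm]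
  by_contra hcon
  push Not at hcon
  have h4 : 0 < ‖S.adjoint x‖ := (norm_nonneg x).trans_lt hcon
  nlinarith [norm_nonneg x]

theorem orth (x y : H) : ⟪F.adjoint x, F y⟫_ℂ = 0 := by
  rw [ContinuousLinearMap.adjoint_inner_left, h.FF, inner_zero_right]

theorem sum_norm (x : H) : ‖F.adjoint x‖ ^ 2 + ‖F x‖ ^ 2 = ‖x‖ ^ 2 := by
  have h1 : ⟪x, F (F.adjoint x) + F.adjoint (F x)⟫_ℂ = ⟪x, x⟫_ℂ := by rw [h.one]
  have e1 : ⟪x, F (F.adjoint x)⟫_ℂ = ⟪F.adjoint x, F.adjoint x⟫_ℂ :=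
    (ContinuousLinearMap.adjoint_inner_left F _ _).symm
  have e2 : ⟪x, F.adjoint (F x)⟫_ℂ = ⟪F x, F x⟫_ℂ := ContinuousLinearMap.adjoint_inner_right F _ _
  rw [inner_add_right, e1, e2, inner_self_eq_norm_sq_to_K, inner_self_eq_norm_sq_to_K,
    inner_self_eq_norm_sq_to_K] at h1
  exact_mod_cast h1

end Dat

theorem zero_of_add {a b : H} (h : ⟪a, b⟫_ℂ = 0) (hs : a + b = 0) : a = 0 ∧ b = 0 := by
  have h1 : ⟪a, a + b⟫_ℂ = 0 := by rw [hs, inner_zero_right]
  rw [inner_add_right, h, add_zero] at h1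
  have h2 : a = 0 := inner_self_eq_zero.1 h1
  exact ⟨h2, by rwa [h2, zero_add] at hs⟩

theorem Top_adj (x : H) : (Top S D F).adjoint x = F.adjoint (D.adjoint x) + F (S.adjoint (D x)) := by
  refine ext_inner_left ℂ fun y => ?_
  rw [ContinuousLinearMap.adjoint_inner_right, Top_apply, inner_add_left, inner_add_right,
    ContinuousLinearMap.adjoint_inner_right, ContinuousLinearMap.adjoint_inner_right,
    ← ContinuousLinearMap.adjoint_inner_left F, ContinuousLinearMap.adjoint_inner_right S,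
    ContinuousLinearMap.adjoint_inner_left D]

/-! ### Subnormality -/

section Sub

variable {L : Type} [NormedAddCommGroup L] [InnerProductSpace ℂ L] [CompleteSpace L]

/-- The space of the normal extension. -/
abbrev KK (L : Type) [NormedAddCommGroup L] : Type := PiLp 2 (fun _ : Fin 2 => L)

noncomputable def Nop (U : L →L[ℂ] L) : KK L →L[ℂ] KK L :=
  ((PiLp.continuousLinearEquiv 2 ℂ (fun _ : Fin 2 => L)).symm : (Fin 2 → L) →L[ℂ] KK L) ∘L
    ContinuousLinearMap.pi ![U ∘L PiLp.proj 2 (fun _ : Fin 2 => L) 0, 0]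

theorem Nop_zero (U : L →L[ℂ] L) (x : KK L) : Nop U x 0 = U (x 0) := rfl

theorem Nop_one (U : L →L[ℂ] L) (x : KK L) : Nop U x 1 = 0 := rfl

theorem inner_KK (x y : KK L) : ⟪x, y⟫_ℂ = ⟪x 0, y 0⟫_ℂ + ⟪x 1, y 1⟫_ℂ := by
  rw [PiLp.inner_apply, Fin.sum_univ_two]

theorem Nop_adj (U : L →L[ℂ] L) (x : KK L) : (Nop U).adjoint x = Nop U.adjoint x := by
  refine ext_inner_left ℂ fun y => ?_
  rw [ContinuousLinearMap.adjoint_inner_right, inner_KK, inner_KK, Nop_zero, Nop_one, Nop_zero,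
    Nop_one, inner_zero_left, inner_zero_right, ContinuousLinearMap.adjoint_inner_right]

theorem Nop_normal (U : L →L[ℂ] L) (h1 : ∀ x, U.adjoint (U x) = x) (h2 : ∀ x, U (U.adjoint x) = x) :
    IsNormalOp (Nop U) := by
  intro x
  rw [Nop_adj, Nop_adj]
  refine PiLp.ext fun i => ?_
  fin_cases i
  · change Nop U.adjoint (Nop U x) 0 = Nop U (Nop U.adjoint x) 0
    rw [Nop_zero, Nop_zero, Nop_zero, Nop_zero, h1, h2]
  · rfl

noncomputable def Vlin (S D F : H →L[ℂ] H) (ι : H →ₗᵢ[ℂ] L) : H →ₗ[ℂ] KK L where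
  toFun x := WithLp.toLp 2 ![ι (D.adjoint (S (F.adjoint x)) + F x),
    ι (S (F.adjoint x) - D (D.adjoint (S (F.adjoint x))))]
  map_add' x y := by
    refine PiLp.ext fun i => ?_
    fin_cases i
    · change ι (D.adjoint (S (F.adjoint (x + y))) + F (x + y)) =
        ι (D.adjoint (S (F.adjoint x)) + F x) + ι (D.adjoint (S (F.adjoint y)) + F y)
      rw [← map_add]
      congr 1
      simp only [map_add]
      abel
    · change ι (S (F.adjoint (x + y)) - D (D.adjoint (S (F.adjoint (x + y))))) =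
        ι (S (F.adjoint x) - D (D.adjoint (S (F.adjoint x)))) +
          ι (S (F.adjoint y) - D (D.adjoint (S (F.adjoint y))))
      rw [← map_add]
      congr 1
      simp only [map_add]
      abel
  map_smul' c x := by
    refine PiLp.ext fun i => ?_
    fin_cases i
    · change ι (D.adjoint (S (F.adjoint (c • x))) + F (c • x)) =
        c • ι (D.adjoint (S (F.adjoint x)) + F x)
      rw [← map_smul]
      congr 1
      simp only [map_smul, smul_add]
    · change ι (S (F.adjoint (c • x)) - D (D.adjoint (S (F.adjoint (c • x))))) =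
        c • ι (S (F.adjoint x) - D (D.adjoint (S (F.adjoint x))))
      rw [← map_smul]
      congr 1
      simp only [map_smul, smul_sub]

theorem norm_sq_sub (h : Dat S D F) (y : H) :
    ‖y - D (D.adjoint y)‖ ^ 2 = ‖y‖ ^ 2 - ‖D.adjoint y‖ ^ 2 := by
  have h1 : ‖y‖ ^ 2 = ‖y - D (D.adjoint y)‖ ^ 2 + ‖D (D.adjoint y)‖ ^ 2 := by
    have h2 : ⟪y - D (D.adjoint y), D (D.adjoint y)⟫_ℂ = 0 := by
      rw [← ContinuousLinearMap.adjoint_inner_left, map_sub, h.DD, sub_self, inner_zero_left]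
    have h3 := norm_add_sq_eq_norm_sq_add_norm_sq_of_inner_eq_zero _ _ h2
    rw [sub_add_cancel] at h3
    nlinarith [h3]
  rw [h1, h.nD]
  ring

theorem Vlin_norm (h : Dat S D F) (ι : H →ₗᵢ[ℂ] L) (x : H) : ‖Vlin S D F ι x‖ = ‖x‖ := by
  have h0 : ‖Vlin S D F ι x‖ ^ 2 = ‖D.adjoint (S (F.adjoint x)) + F x‖ ^ 2 +
      ‖S (F.adjoint x) - D (D.adjoint (S (F.adjoint x)))‖ ^ 2 := by
    rw [PiLp.norm_sq_eq_of_L2, Fin.sum_univ_two]
    change ‖ι (D.adjoint (S (F.adjoint x)) + F x)‖ ^ 2 +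
      ‖ι (S (F.adjoint x) - D (D.adjoint (S (F.adjoint x))))‖ ^ 2 = _
    rw [ι.norm_map, ι.norm_map]
  have h1 : ‖D.adjoint (S (F.adjoint x)) + F x‖ ^ 2 =
      ‖D.adjoint (S (F.adjoint x))‖ ^ 2 + ‖F x‖ ^ 2 := by
    have h2 : ⟪D.adjoint (S (F.adjoint x)), F x⟫_ℂ = 0 := by
      rw [← h.GS, ← h.Gd]
      exact h.orth _ _
    have h3 := norm_add_sq_eq_norm_sq_add_norm_sq_of_inner_eq_zero _ _ h2
    nlinarith [h3]
  rw [h1, norm_sq_sub h, h.nS] at h0
  have h4 := h.sum_norm x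
  have h5 : ‖Vlin S D F ι x‖ ^ 2 = ‖x‖ ^ 2 := by rw [h0, ← h4]; ring
  exact (sq_eq_sq₀ (norm_nonneg _) (norm_nonneg _)).1 h5

theorem subnormal (h : Dat S D F) (ι : H →ₗᵢ[ℂ] L) (U : L →L[ℂ] L)
    (h1 : ∀ x, U.adjoint (U x) = x) (h2 : ∀ x, U (U.adjoint x) = x)
    (hU : ∀ x, U (ι x) = ι (S (F.adjoint x) + F x)) : IsSubnormal (Top S D F) := by
  refine ⟨KK L, inferInstance, inferInstance, inferInstance,
    ⟨Vlin S D F ι, Vlin_norm h ι⟩, Nop U, Nop_normal U h1 h2, fun x => ?_⟩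
  have e1 : F.adjoint (Top S D F x) = D (F.adjoint (F x)) := by
    rw [Top_apply, map_add, h.GD, h.Gd, h.GS, h.GG, map_zero, map_zero, add_zero]
  have e2 : F (Top S D F x) = D.adjoint (S (F (F.adjoint x))) := by
    rw [Top_apply, map_add, h.FD, h.FF, map_zero, zero_add, h.Fd, h.FS]
  refine PiLp.ext fun i => ?_
  fin_cases i
  · change U (ι (D.adjoint (S (F.adjoint x)) + F x)) =
      ι (D.adjoint (S (F.adjoint (Top S D F x))) + F (Top S D F x))
    rw [hU, e1, e2]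
    congr 1
    simp only [map_add]
    rw [h.Gd, h.GS, h.GG, map_zero, map_zero, map_zero, zero_add, h.FF, add_zero, h.Fd,
      h.FS, h.SD, h.DD]
  · change (0 : L) = ι (S (F.adjoint (Top S D F x)) - D (D.adjoint (S (F.adjoint (Top S D F x)))))
    rw [e1, h.SD, h.DD, sub_self, map_zero]

end Sub

/-! ### The operator is not normal -/

theorem not_normal (h : Dat S D F) (u : H) (hu : u ≠ 0) (hSu : S.adjoint u = 0)
    (hFu : F.adjoint u = 0)
    (hd : ∀ y, F.adjoint y = 0 → (∀ k : ℕ, ⟪(S ^ k) u, y⟫_ℂ = 0) → y = 0) :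
    ¬ IsNormalOp (Top S D F) := by
  intro hN
  have hn : ∀ x, ‖Top S D F x‖ = ‖(Top S D F).adjoint x‖ := by
    intro x
    have e1 : ⟪Top S D F x, Top S D F x⟫_ℂ =
        ⟪(Top S D F).adjoint x, (Top S D F).adjoint x⟫_ℂ := by
      rw [← ContinuousLinearMap.adjoint_inner_right (Top S D F) x, hN x,
        ← ContinuousLinearMap.adjoint_inner_left]
    rw [inner_self_eq_norm_sq_to_K, inner_self_eq_norm_sq_to_K] at e1
    have h2 : ‖Top S D F x‖ ^ 2 = ‖(Top S D F).adjoint x‖ ^ 2 := by exact_mod_cast e1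
    exact (sq_eq_sq₀ (norm_nonneg _) (norm_nonneg _)).1 h2
  have nF : ∀ x, F.adjoint x = 0 → ‖F x‖ = ‖x‖ := by
    intro x hx
    have := h.sum_norm x
    rw [hx, norm_zero] at this
    have h2 : ‖F x‖ ^ 2 = ‖x‖ ^ 2 := by linarith
    exact (sq_eq_sq₀ (norm_nonneg _) (norm_nonneg _)).1 h2
  have GF : ∀ x, F.adjoint x = 0 → F.adjoint (F x) = x := by
    intro x hx
    have := h.one x
    rwa [hx, map_zero, zero_add] at this
  -- first relation
  have r1 : ∀ x, F.adjoint x = 0 → ‖S.adjoint (D x)‖ = ‖x‖ := by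
    intro x hx
    have e1 : Top S D F x = D (F x) := by rw [Top_apply, hx, map_zero, map_zero, add_zero]
    have e2 : (Top S D F).adjoint x = F (S.adjoint (D x)) := by
      rw [Top_adj, h.Gd, hx, map_zero, zero_add]
    have e3 := hn x
    rw [e1, e2, h.nD, nF x hx, nF _ (by rw [h.Gs, h.GD, hx, map_zero, map_zero])] at e3
    exact e3.symm
  -- second relation
  have r2 : ∀ x, F.adjoint x = 0 → ‖D.adjoint (S x)‖ = ‖D.adjoint x‖ := by
    intro x hx
    have e1 : Top S D F (F x) = D.adjoint (S x) := by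
      rw [Top_apply, h.FF, map_zero, zero_add, GF x hx]
    have e2 : (Top S D F).adjoint (F x) = D.adjoint x := by
      rw [Top_adj, h.Gd, GF x hx, ← h.FD, h.Fs, h.FF, map_zero, add_zero]
    have e3 := hn (F x)
    rwa [e1, e2] at e3
  have r3 : ∀ x, F.adjoint x = 0 → S (S.adjoint (D x)) = D x := by
    intro x hx
    have e1 : ‖D x - S (S.adjoint (D x))‖ ^ 2 = ‖D x‖ ^ 2 - ‖S.adjoint (D x)‖ ^ 2 := by
      have h1 : ‖D x‖ ^ 2 = ‖D x - S (S.adjoint (D x))‖ ^ 2 + ‖S (S.adjoint (D x))‖ ^ 2 := by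
        have h2 : ⟪D x - S (S.adjoint (D x)), S (S.adjoint (D x))⟫_ℂ = 0 := by
          rw [← ContinuousLinearMap.adjoint_inner_left, map_sub, h.SS, sub_self, inner_zero_left]
        have h3 := norm_add_sq_eq_norm_sq_add_norm_sq_of_inner_eq_zero _ _ h2
        rw [sub_add_cancel] at h3
        nlinarith [h3]
      rw [h1, h.nS]
      ring
    rw [r1 x hx, h.nD, sub_self] at e1
    have e2 : D x - S (S.adjoint (D x)) = 0 := by
      rw [← norm_eq_zero]
      exact pow_eq_zero_iff (two_ne_zero) |>.1 e1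
    exact (sub_eq_zero.1 e2).symm
  -- the adjoint of D kills u
  have r4 : D.adjoint u = 0 := by
    have h1 : F.adjoint (D.adjoint u) = 0 := by rw [h.Gd, hFu, map_zero]
    have h2 : ⟪D.adjoint u, D.adjoint u⟫_ℂ = 0 := by
      rw [ContinuousLinearMap.adjoint_inner_left, ← r3 _ h1, ← ContinuousLinearMap.adjoint_inner_left,
        hSu, inner_zero_left]
    exact inner_self_eq_zero.1 h2
  have hFk : ∀ k : ℕ, F.adjoint ((S ^ k) u) = 0 := by
    intro k
    induction k with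
    | zero => simpa using hFu
    | succ k ih => rw [pow_succ', mul_apply_eq_comp, h.GS, ih, map_zero]
  have r5 : ∀ k : ℕ, D.adjoint ((S ^ k) u) = 0 := by
    intro k
    induction k with
    | zero => simpa using r4
    | succ k ih =>
      rw [pow_succ', mul_apply_eq_comp, ← norm_eq_zero, r2 _ (hFk k), ih, norm_zero]
  have r6 : D u = 0 := by
    refine hd _ (by rw [h.GD, hFu, map_zero]) fun k => ?_
    rw [← ContinuousLinearMap.adjoint_inner_left, r5, inner_zero_left]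
  have r7 := h.nD u
  rw [r6, norm_zero] at r7
  exact hu (norm_eq_zero.1 r7.symm)

end Pool.Agent.NH44.BT.Abs
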