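import Mathlib

/-!
# The circle, matrix symbols and Blaschke–Potapov products

The circle is `AddCircle 1`, with the normalised Haar measure; the coordinate is
`z t = exp (2 π i t)`.
-/

set_option autoImplicit false

open MeasureTheory AddCircle
open scoped ComplexConjugate ENNReal

namespace Pool.Agent.NH44.BT

/-- The circle. -/
abbrev Ci : Type := AddCircle (1 : ℝ)

/-- The normalised Lebesgue measure of the circle. -/
noncomputable abbrev mu : Measure Ci := haarAddCircle

/-- The coordinate `z = exp (2 π i t)` of the circle. -/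
noncomputable def zc (t : Ci) : ℂ := fourier 1 t

/-- The space `ℂ ^ n`. -/
abbrev Cn (n : ℕ) : Type := EuclideanSpace ℂ (Fin n)

/-- The Fourier coefficients of negative index of the bounded matrix function `Φ` vanish. -/
def IsAnalytic {n : ℕ} (Φ : Ci → Matrix (Fin n) (Fin n) ℂ) : Prop :=
  ∀ i j, ∀ k : ℤ, k < 0 → fourierCoeff (fun t => Φ t i j) k = 0

/-- A finite Blaschke–Potapov product: `B(z) = V ∏ (b_k(z) P_k + (1 - P_k))` with `V` unitary,
`b_k(z) = (z - α_k) / (1 - conj α_k z)`, `|α_k| < 1`, and nonzero orthogonal projections `P_k`. -/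
def IsBlaschkePotapov {n : ℕ} (B : ℂ → Matrix (Fin n) (Fin n) ℂ) : Prop :=
  ∃ V ∈ Matrix.unitaryGroup (Fin n) ℂ, ∃ l : List (ℂ × Matrix (Fin n) (Fin n) ℂ),
    (∀ p ∈ l, ‖p.1‖ < 1 ∧ p.2 ≠ 0 ∧ p.2.IsHermitian ∧ p.2 * p.2 = p.2) ∧
    ∀ w : ℂ, B w = V * (l.map fun p => ((w - p.1) / (1 - conj p.1 * w)) • p.2 + (1 - p.2)).prod

end Pool.Agent.NH44.BT
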