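import Pool.Agent.NH44.BT.Defs

/-!
# Multiplication operators on `L^2` and the Hardy space
-/

set_option autoImplicit false
set_option linter.unusedSectionVars false

open MeasureTheory AddCircle
open scoped ComplexConjugate ENNReal InnerProductSpace

namespace Pool.Agent.NH44.BT

/-! ### multiplication by a bounded function -/

/-- Multiplication by the bounded function `φ`. -/
noncomputable def mulL {n : ℕ} (φ : Ci → ℂ) (hφ : MemLp φ ∞ mu) : L2 n →L[ℂ] L2 n :=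
  (ContinuousLinearMap.lsmul ℂ ℂ : ℂ →L[ℂ] Cn n →L[ℂ] Cn n).holderL mu ∞ 2 2 (hφ.toLp φ)

theorem mulL_ae {n : ℕ} (φ : Ci → ℂ) (hφ : MemLp φ ∞ mu) (f : L2 n) :
    ∀ᵐ t ∂mu, mulL φ hφ f t = φ t • f t := by
  have h1 := (ContinuousLinearMap.lsmul ℂ ℂ : ℂ →L[ℂ] Cn n →L[ℂ] Cn n).coeFn_holder (r := 2)
    (hφ.toLp φ) f
  filter_upwards [h1, hφ.coeFn_toLp] with t h2 h3
  change (ContinuousLinearMap.lsmul ℂ ℂ : ℂ →L[ℂ] Cn n →L[ℂ] Cn n).holder 2 (hφ.toLp φ) f t = _
  rw [h2, h3]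
  rfl

/-- A constant linear map acting on `L^2`. -/
noncomputable def cm {n : ℕ} (A : Cn n →L[ℂ] Cn n) : L2 n →L[ℂ] L2 n := A.compLpL 2 mu

theorem cm_ae {n : ℕ} (A : Cn n →L[ℂ] Cn n) (f : L2 n) : ∀ᵐ t ∂mu, cm A f t = A (f t) :=
  ContinuousLinearMap.coeFn_compLpL A f

theorem fourierCoeff_ae {n : ℕ} {f g : Ci → Cn n} (h : ∀ᵐ t ∂mu, f t = g t) (k : ℤ) :
    fourierCoeff f k = fourierCoeff g k := by
  unfold fourierCoeff
  refine integral_congr_ae ?_
  filter_upwards [h] with t ht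
  rw [ht]

theorem int_fourier {n : ℕ} (k : ℤ) {f : Ci → Cn n} (hf : Integrable f mu) :
    Integrable (fun t => (fourier k t : ℂ) • f t) mu := by
  have h1 : AEStronglyMeasurable (fun t : Ci => (fourier k t : ℂ)) mu :=
    (map_continuous (fourier k)).aestronglyMeasurable
  refine hf.mono (h1.smul hf.1) (Filter.Eventually.of_forall fun t => ?_)
  rw [norm_smul, fourier_apply, Circle.norm_coe, one_mul]

theorem fourierCoeff_cm {n : ℕ} (A : Cn n →L[ℂ] Cn n) (f : L2 n) (k : ℤ) :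
    fourierCoeff (⇑(cm A f)) k = A (fourierCoeff (⇑f) k) := by
  rw [fourierCoeff_ae (cm_ae A f) k]
  unfold fourierCoeff
  rw [← ContinuousLinearMap.integral_comp_comm A]
  · simp only [map_smul]
  · have h1 : Integrable (⇑f) mu := (Lp.memLp f).integrable (by norm_num)
    exact int_fourier (-k) h1

/-- A function with vanishing Fourier coefficients is zero. -/
theorem zero_of_coeff {n : ℕ} (f : L2 n) (h : ∀ k : ℤ, fourierCoeff (⇑f) k = 0) : f = 0 := by
  have h1 : ∀ i : Fin n, ∀ᵐ t ∂mu, f t i = 0 := by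
    intro i
    let g : Lp ℂ 2 mu := (EuclideanSpace.proj i : Cn n →L[ℂ] ℂ).compLpL 2 mu f
    have hg : ∀ᵐ t ∂mu, g t = f t i :=
      ContinuousLinearMap.coeFn_compLpL (EuclideanSpace.proj i : Cn n →L[ℂ] ℂ) f
    have h2 : ∀ k : ℤ, fourierCoeff (⇑g) k = 0 := by
      intro k
      have h3 : fourierCoeff (⇑g) k = (EuclideanSpace.proj i : Cn n →L[ℂ] ℂ)
          (fourierCoeff (⇑f) k) := by
        unfold fourierCoeff
        rw [← ContinuousLinearMap.integral_comp_comm]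
        · refine integral_congr_ae ?_
          filter_upwards [hg] with t ht
          rw [ht, map_smul]
          rfl
        · have h1 : Integrable (⇑f) mu := (Lp.memLp f).integrable (by norm_num)
          exact int_fourier (-k) h1
      rw [h3, h k, map_zero]
    have h3 : g = 0 := by
      have h4 : (fourierBasis (T := (1 : ℝ))).repr g = 0 := by
        ext k
        rw [fourierBasis_repr, h2 k]
        rfl
      exact (LinearIsometryEquiv.map_eq_zero_iff _).1 h4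
    have h4 : ∀ᵐ t ∂mu, g t = 0 := by
      rw [h3]
      exact Lp.coeFn_zero ℂ 2 mu
    filter_upwards [hg, h4] with t h5 h6
    rw [← h5, h6]
  rw [Lp.eq_zero_iff_ae_eq_zero]
  have h2 : ∀ᵐ t ∂mu, ∀ i : Fin n, f t i = 0 := ae_all_iff.2 h1
  filter_upwards [h2] with t ht
  ext i
  exact ht i

/-! ### the shift -/

theorem zc_norm (t : Ci) : ‖zc t‖ = 1 := by
  unfold zc
  rw [fourier_apply]
  exact Circle.norm_coe _

theorem zc_cont : Continuous zc := map_continuous (fourier 1)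

theorem memLp_of_cont {φ : Ci → ℂ} (h : Continuous φ) : MemLp φ ∞ mu := by
  obtain ⟨C, hC⟩ := (isCompact_range h).isBounded.exists_norm_le
  exact memLp_top_of_bound h.aestronglyMeasurable C
    (Filter.Eventually.of_forall fun t => hC _ ⟨t, rfl⟩)

theorem memZ : MemLp zc ∞ mu := memLp_of_cont zc_cont

theorem fourier_zc (k : ℤ) (t : Ci) : (fourier (-k) t : ℂ) * zc t = fourier (-(k - 1)) t := by
  unfold zc
  rw [← fourier_add]
  congr 1
  ring_nf

theorem fourierCoeff_mulZ {n : ℕ} (f : L2 n) (k : ℤ) :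
    fourierCoeff (⇑(mulL zc memZ f)) k = fourierCoeff (⇑f) (k - 1) := by
  rw [fourierCoeff_ae (mulL_ae zc memZ f) k]
  unfold fourierCoeff
  refine integral_congr_ae (Filter.Eventually.of_forall fun t => ?_)
  simp only [smul_smul, fourier_zc]

/-- Restriction of an operator on `L^2` to the Hardy space. -/
noncomputable def restr {n : ℕ} (A : L2 n →L[ℂ] L2 n) (h : ∀ f ∈ H2 n, A f ∈ H2 n) :
    H2 n →L[ℂ] H2 n :=
  (A ∘L (H2 n).subtypeL).codRestrict (H2 n) (fun f => h f f.2)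

theorem restr_coe {n : ℕ} (A : L2 n →L[ℂ] L2 n) (h : ∀ f ∈ H2 n, A f ∈ H2 n) (f : H2 n) :
    ((restr A h f : H2 n) : L2 n) = A f := rfl

theorem mulZ_mem {n : ℕ} (f : L2 n) (hf : f ∈ H2 n) : mulL zc memZ f ∈ H2 n := by
  intro k hk
  rw [fourierCoeff_mulZ]
  exact hf _ (by omega)

theorem cm_mem {n : ℕ} (A : Cn n →L[ℂ] Cn n) (f : L2 n) (hf : f ∈ H2 n) : cm A f ∈ H2 n := by
  intro k hk
  rw [fourierCoeff_cm, hf k hk, map_zero]

/-- The shift. -/
noncomputable def Sh (n : ℕ) : H2 n →L[ℂ] H2 n := restr (mulL zc memZ) mulZ_mem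

/-! ### inner products -/

theorem inner_L2 {n : ℕ} (f g : L2 n) : ⟪f, g⟫_ℂ = ∫ t, ⟪f t, g t⟫_ℂ ∂mu := L2.inner_def f g

theorem inner_mul_mul {n : ℕ} {φ : Ci → ℂ} (hφ : MemLp φ ∞ mu) (h1 : ∀ t, ‖φ t‖ = 1)
    (f g : L2 n) : ⟪mulL φ hφ f, mulL φ hφ g⟫_ℂ = ⟪f, g⟫_ℂ := by
  rw [inner_L2, inner_L2]
  refine integral_congr_ae ?_
  filter_upwards [mulL_ae φ hφ f, mulL_ae φ hφ g] with t hf hg
  rw [hf, hg, inner_smul_left, inner_smul_right, ← mul_assoc, Complex.conj_mul', h1 t]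
  simp

theorem memLp_conj {φ : Ci → ℂ} (hφ : MemLp φ ∞ mu) : MemLp (fun t => conj (φ t)) ∞ mu := hφ.star

theorem inner_mul_left {n : ℕ} {φ : Ci → ℂ} (hφ : MemLp φ ∞ mu) (f g : L2 n) :
    ⟪mulL φ hφ f, g⟫_ℂ = ⟪f, mulL _ (memLp_conj hφ) g⟫_ℂ := by
  rw [inner_L2, inner_L2]
  refine integral_congr_ae ?_
  filter_upwards [mulL_ae φ hφ f, mulL_ae _ (memLp_conj hφ) g] with t hf hg
  rw [hf, hg, inner_smul_left, inner_smul_right]

theorem inner_cm {n : ℕ} {A B : Cn n →L[ℂ] Cn n} (h : ∀ x y, ⟪A x, y⟫_ℂ = ⟪x, B y⟫_ℂ)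
    (f g : L2 n) : ⟪cm A f, g⟫_ℂ = ⟪f, cm B g⟫_ℂ := by
  rw [inner_L2, inner_L2]
  refine integral_congr_ae ?_
  filter_upwards [cm_ae A f, cm_ae B g] with t hf hg
  rw [hf, hg, h]

/-! ### constant functions -/

/-- The constant function `w`. -/
noncomputable def cst {n : ℕ} (w : Cn n) : L2 n := Lp.const 2 mu w

theorem cst_ae {n : ℕ} (w : Cn n) : ∀ᵐ t ∂mu, cst w t = w := Lp.coeFn_const 2 mu w

theorem integral_fourier (k : ℤ) : ∫ t, (fourier k t : ℂ) ∂mu = if k = 0 then 1 else 0 := by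
  have h := fourierCoeff_fourier (T := (1 : ℝ)) k
  have h2 : fourierCoeff (fourier k : Ci → ℂ) 0 = ∫ t, (fourier k t : ℂ) ∂mu := by
    unfold fourierCoeff
    simp
  rw [← h2, h]
  simp [Pi.single_apply, eq_comm]

theorem fourierCoeff_cst {n : ℕ} (w : Cn n) (k : ℤ) :
    fourierCoeff (⇑(cst w)) k = if k = 0 then w else 0 := by
  rw [fourierCoeff_ae (cst_ae w) k]
  unfold fourierCoeff
  rw [integral_smul_const, integral_fourier]
  by_cases hk : k = 0
  · simp [hk]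
  · simp [hk]

theorem cst_mem {n : ℕ} (w : Cn n) : cst w ∈ H2 n := by
  intro k hk
  rw [fourierCoeff_cst, if_neg (by omega)]

/-- The constant function `w` in the Hardy space. -/
noncomputable def cH {n : ℕ} (w : Cn n) : H2 n := ⟨cst w, cst_mem w⟩

theorem pow_ae {n : ℕ} (w : Cn n) (j : ℕ) :
    ∀ᵐ t ∂mu, (((Sh n) ^ j) (cH w) : L2 n) t = (fourier (j : ℤ) t : ℂ) • w := by
  induction j with
  | zero =>
    filter_upwards [cst_ae w] with t ht
    change cst w t = _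
    rw [ht]
    simp
  | succ j ih =>
    filter_upwards [ih, mulL_ae zc memZ (((Sh n) ^ j) (cH w) : L2 n)] with t h1 h2
    rw [pow_succ', mul_apply_eq_comp]
    change mulL zc memZ (((Sh n) ^ j) (cH w) : L2 n) t = _
    rw [h2, h1, smul_smul]
    congr 1
    unfold zc
    rw [← fourier_add]
    congr 1
    push_cast
    ring_nf

theorem inner_pow {n : ℕ} (w : Cn n) (j : ℕ) (x : H2 n) :
    ⟪((Sh n) ^ j) (cH w), x⟫_ℂ = ⟪w, fourierCoeff (⇑(x : L2 n)) (j : ℤ)⟫_ℂ := by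
  change ⟪(((Sh n) ^ j) (cH w) : L2 n), (x : L2 n)⟫_ℂ = _
  rw [inner_L2]
  unfold fourierCoeff
  have h1 : Integrable (⇑(x : L2 n)) mu := (Lp.memLp (x : L2 n)).integrable (by norm_num)
  have h2 : Integrable (fun t => (fourier (-(j : ℤ)) t : ℂ) • (x : L2 n) t) mu :=
    int_fourier _ h1
  rw [← integral_inner h2]
  refine integral_congr_ae ?_
  filter_upwards [pow_ae w j] with t ht
  rw [ht, inner_smul_left, inner_smul_right, fourier_neg]

theorem Sh_SS {n : ℕ} (x : H2 n) : (Sh n).adjoint (Sh n x) = x := by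
  refine ext_inner_left ℂ fun y => ?_
  rw [ContinuousLinearMap.adjoint_inner_right]
  exact inner_mul_mul memZ zc_norm _ _

theorem dense_all {n : ℕ} (M : Submodule ℂ (H2 n)) (hM : IsClosed (M : Set (H2 n)))
    (h : ∀ (k : ℕ) (w : Cn n), ((Sh n) ^ k) (cH w) ∈ M) : M = ⊤ := by
  have : CompleteSpace M := hM.completeSpace_coe
  rw [← Submodule.orthogonal_eq_bot_iff, Submodule.eq_bot_iff]
  intro x hx
  have h1 : ∀ k : ℤ, fourierCoeff (⇑(x : L2 n)) k = 0 := by
    intro k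
    rcases lt_or_ge k 0 with hk | hk
    · exact x.2 k hk
    · obtain ⟨j, rfl⟩ := Int.eq_ofNat_of_zero_le hk
      have h2 := (Submodule.mem_orthogonal _ _).1 hx _
        (h j (fourierCoeff (⇑(x : L2 n)) (j : ℤ)))
      rw [inner_pow] at h2
      exact inner_self_eq_zero.1 h2
  exact Subtype.ext (zero_of_coeff _ h1)

theorem ker_Sh {n : ℕ} (x : H2 n) (hx : (Sh n).adjoint x = 0) :
    x = cH (fourierCoeff (⇑(x : L2 n)) 0) := by
  have h1 : ∀ k : ℤ, 0 < k → fourierCoeff (⇑(x : L2 n)) k = 0 := by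
    intro k hk
    obtain ⟨j, rfl⟩ : ∃ j : ℕ, k = ((j + 1 : ℕ) : ℤ) := ⟨(k - 1).toNat, by omega⟩
    have h2 := inner_pow (fourierCoeff (⇑(x : L2 n)) ((j + 1 : ℕ) : ℤ)) (j + 1) x
    rw [pow_succ', mul_apply_eq_comp, ← ContinuousLinearMap.adjoint_inner_right, hx,
      inner_zero_right] at h2
    exact inner_self_eq_zero.1 h2.symm
  refine Subtype.ext (sub_eq_zero.1 (zero_of_coeff _ fun k => ?_))
  have h2 : fourierCoeff (⇑((x : L2 n) - cst (fourierCoeff (⇑(x : L2 n)) 0))) k =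
      fourierCoeff (⇑(x : L2 n)) k - fourierCoeff (⇑(cst (fourierCoeff (⇑(x : L2 n)) 0))) k := by
    have := (coeffL n k).map_sub (x : L2 n) (cst (fourierCoeff (⇑(x : L2 n)) 0))
    exact this
  change fourierCoeff (⇑((x : L2 n) - cst (fourierCoeff (⇑(x : L2 n)) 0))) k = 0
  rw [h2, fourierCoeff_cst]
  rcases lt_trichotomy k 0 with hk | hk | hk
  · rw [x.2 k hk, if_neg hk.ne, sub_zero]
  · rw [hk, if_pos rfl, sub_self]
  · rw [h1 k hk, if_neg hk.ne', sub_zero]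

theorem Sh_cst {n : ℕ} (w : Cn n) : (Sh n).adjoint (cH w) = 0 := by
  refine Subtype.ext (zero_of_coeff _ fun k => ?_)
  rcases lt_or_ge k 0 with hk | hk
  · exact ((Sh n).adjoint (cH w)).2 k hk
  · obtain ⟨j, rfl⟩ := Int.eq_ofNat_of_zero_le hk
    set v := fourierCoeff (⇑((Sh n).adjoint (cH w) : L2 n)) (j : ℤ) with hv
    have h2 := inner_pow v j ((Sh n).adjoint (cH w))
    rw [ContinuousLinearMap.adjoint_inner_right, ← mul_apply_eq_comp, ← pow_succ', inner_pow] at h2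
    have h3 : fourierCoeff (⇑((cH w : H2 n) : L2 n)) ((j + 1 : ℕ) : ℤ) = 0 := by
      change fourierCoeff (⇑(cst w)) _ = 0
      rw [fourierCoeff_cst, if_neg (by omega)]
    rw [h3, inner_zero_right, ← hv] at h2
    exact inner_self_eq_zero.1 h2.symm

theorem cm_cst {n : ℕ} (A : Cn n →L[ℂ] Cn n) (w : Cn n) : cm A (cst w) = cst (A w) := by
  refine Lp.ext ?_
  filter_upwards [cm_ae A (cst w), cst_ae w, cst_ae (A w)] with t h1 h2 h3
  rw [h1, h2, h3]

end Pool.Agent.NH44.BT
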