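import Pool.Agent.NH44.BT.Abs

/-!
# Irreducibility of the operator `D F + D* S F*` when `D` is a Moebius transform of `S`
-/

set_option autoImplicit false
set_option linter.unusedSectionVars false

open scoped ComplexConjugate InnerProductSpace

namespace Pool.Agent.NH44.BT.Abs

variable {H : Type} [NormedAddCommGroup H] [InnerProductSpace ℂ H] [CompleteSpace H]
  {S D F : H →L[ℂ] H}

/-- `D` is the Moebius transform `(S - s) (1 - s S)⁻¹`. -/
structure Moe (S D F : H →L[ℂ] H) (s : ℝ) (u : H) : Prop where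
  s0 : 0 < s
  s1 : s < 1
  rel : ∀ x, D (x - (s : ℂ) • S x) = S x - (s : ℂ) • x
  surj : ∀ y, ∃ x, x - (s : ℂ) • S x = y
  hu : u ≠ 0
  Su : S.adjoint u = 0
  Gu : F.adjoint u = 0
  ker : ∀ x, S.adjoint x = 0 → ∃ a b : ℂ, x = a • u + b • F u
  dense : ∀ M : Submodule ℂ H, IsClosed (M : Set H) → (∀ k : ℕ, (S ^ k) u ∈ M) →
    (∀ k : ℕ, (S ^ k) (F u) ∈ M) → M = ⊤

variable {s : ℝ} {u : H}

namespace Moe

variable (h : Dat S D F) (m : Moe S D F s u)
include h m

theorem small {x y : H} (hxy : ‖y‖ ≤ ‖x‖) (he : x = (s : ℂ) • y) : x = 0 := by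
  have h1 : ‖x‖ = s * ‖y‖ := by
    conv_lhs => rw [he]
    rw [norm_smul, Complex.norm_real, Real.norm_of_nonneg m.s0.le]
  rw [← norm_eq_zero]
  nlinarith [norm_nonneg x, norm_nonneg y, m.s0, m.s1,
    mul_le_mul_of_nonneg_left hxy m.s0.le]

theorem inj {x : H} (he : x - (s : ℂ) • S x = 0) : x = 0 :=
  m.small h (h.nS x).le (sub_eq_zero.1 he)

theorem inj' {x : H} (he : x - (s : ℂ) • S.adjoint x = 0) : x = 0 :=
  m.small h (h.ns x) (sub_eq_zero.1 he)

/-- the adjoint relation -/
theorem rel' (y : H) : D.adjoint y - (s : ℂ) • S.adjoint (D.adjoint y) =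
    S.adjoint y - (s : ℂ) • y := by
  refine ext_inner_left ℂ fun x => ?_
  have h1 : ⟪D (x - (s : ℂ) • S x), y⟫_ℂ = ⟪S x - (s : ℂ) • x, y⟫_ℂ := by rw [m.rel]
  rw [← ContinuousLinearMap.adjoint_inner_right, inner_sub_left, inner_smul_left,
    inner_sub_left, inner_smul_left] at h1
  rw [inner_sub_right, inner_smul_right, inner_sub_right, inner_smul_right,
    ContinuousLinearMap.adjoint_inner_right S, ContinuousLinearMap.adjoint_inner_right S]
  simpa using h1

theorem GFu : F.adjoint (F u) = u := by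
  have := h.one u
  rwa [m.Gu, map_zero, zero_add] at this

/-- the cyclic vector -/
theorem exists_k : ∃ k : H, k - (s : ℂ) • S k = F u ∧ F k = 0 ∧
    F.adjoint k - (s : ℂ) • S (F.adjoint k) = u ∧ D.adjoint (F.adjoint k) = 0 ∧
    D.adjoint (S (F.adjoint k)) = u := by
  obtain ⟨k, hk⟩ := m.surj (F u)
  have h1 : F k = 0 := by
    refine m.inj h ?_
    rw [← h.FS, ← map_smul, ← map_sub, hk, h.FF]
  have h2 : F.adjoint k - (s : ℂ) • S (F.adjoint k) = u := by
    rw [← h.GS, ← map_smul, ← map_sub, hk, m.GFu h]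
  have h3 : S.adjoint (F.adjoint k) = (s : ℂ) • F.adjoint k := by
    have h4 := congrArg S.adjoint h2
    rw [map_sub, map_smul, h.SS, m.Su, sub_eq_zero] at h4
    exact h4
  refine ⟨k, hk, h1, h2, ?_, ?_⟩
  · refine m.inj' h ?_
    rw [m.rel' h, h3, sub_self]
  · have h5 : (D.adjoint (S (F.adjoint k)) - u) -
        (s : ℂ) • S.adjoint (D.adjoint (S (F.adjoint k)) - u) = 0 := by
      have h6 := m.rel' h (S (F.adjoint k))
      rw [h.SS, h2] at h6
      rw [map_sub, m.Su, sub_zero, sub_sub, add_comm u, ← sub_sub, h6, sub_self]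
    exact sub_eq_zero.1 (m.inj' h h5)

theorem ker_adj {k : H} (hk1 : F k = 0) (hk2 : F.adjoint k - (s : ℂ) • S (F.adjoint k) = u)
    {g : H} (hg : (Top S D F).adjoint g = 0) : ∃ a : ℂ, g = a • k := by
  rw [Top_adj] at hg
  obtain ⟨h1, h2⟩ := zero_of_add (h.orth _ _) hg
  rw [h.Gd] at h1
  rw [h.Fs, h.FD] at h2
  -- the component `F g`
  have h3 : F g = 0 := by
    have h4 : D.adjoint (D (F g)) = -((s : ℂ) • D (F g)) := by
      have h5 : (D.adjoint (D (F g)) + (s : ℂ) • D (F g)) -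
          (s : ℂ) • S.adjoint (D.adjoint (D (F g)) + (s : ℂ) • D (F g)) = 0 := by
        have h6 := m.rel' h (D (F g))
        rw [h2, zero_sub] at h6
        rw [map_add, map_smul, h2, smul_zero, add_zero, add_sub_right_comm, h6,
          neg_add_cancel]
      exact eq_neg_of_add_eq_zero_left (m.inj' h h5)
    rw [h.DD] at h4
    refine m.small h (y := -D (F g)) ?_ (by rw [smul_neg]; exact h4)
    rw [norm_neg, h.nD]
  -- the component `F* g`
  have h4 : S.adjoint (F.adjoint g) = (s : ℂ) • F.adjoint g := by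
    have h5 := m.rel' h (F.adjoint g)
    rw [h1, map_zero, smul_zero, sub_zero] at h5
    exact (sub_eq_zero.1 h5.symm)
  obtain ⟨a, b, hab⟩ := m.ker (F.adjoint g - (s : ℂ) • S (F.adjoint g)) (by
    rw [map_sub, map_smul, h.SS, h4, sub_self])
  have h5 : b = 0 := by
    have h6 := congrArg F.adjoint hab
    rw [map_sub, map_smul, h.GS, h.GG, map_zero, smul_zero, sub_zero, map_add, map_smul, map_smul,
      m.Gu, smul_zero, zero_add, m.GFu h] at h6
    exact (smul_eq_zero.1 h6.symm).resolve_right m.hu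
  rw [h5, zero_smul, add_zero] at hab
  have h6 : F.adjoint g = a • F.adjoint k := by
    refine sub_eq_zero.1 (m.inj h ?_)
    rw [map_sub, map_smul, smul_sub, sub_sub_sub_comm, hab, smul_comm, ← smul_sub, hk2, sub_self]
  refine ⟨a, ?_⟩
  have h7 := h.one g
  have h8 := h.one k
  rw [h3, map_zero, add_zero, h6, map_smul] at h7
  rw [hk1, map_zero, add_zero] at h8
  rw [← h7, h8]

theorem pow_FS (k : ℕ) (x : H) : F ((S ^ k) x) = (S ^ k) (F x) := by
  induction k with
  | zero => simp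
  | succ k ih => rw [pow_succ', mul_apply_eq_comp, mul_apply_eq_comp, h.FS, ih]

theorem pow_GS (k : ℕ) (x : H) : F.adjoint ((S ^ k) x) = (S ^ k) (F.adjoint x) := by
  induction k with
  | zero => simp
  | succ k ih => rw [pow_succ', mul_apply_eq_comp, mul_apply_eq_comp, h.GS, ih]

/-- An invariant subspace which contains the cyclic vector is everything. -/
theorem top {k : H} (hk0 : k - (s : ℂ) • S k = F u) (hk1 : F k = 0)
    (hk3 : D.adjoint (S (F.adjoint k)) = u) {M : Submodule ℂ H} (hM : IsClosed (M : Set H))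
    (hT : ∀ x ∈ M, Top S D F x ∈ M) (hk : k ∈ M) : M = ⊤ := by
  have h1 : u ∈ M := by
    have h2 := hT k hk
    rwa [Top_apply, hk1, map_zero, zero_add, hk3] at h2
  have h2 : ∀ j : ℕ, (S ^ j) u ∈ M ∧ D ((S ^ j) (F u)) ∈ M := by
    have step : ∀ j : ℕ, (S ^ j) u ∈ M → D ((S ^ j) (F u)) ∈ M := by
      intro j hj
      have h3 := hT _ hj
      rwa [Top_apply, m.pow_FS h, m.pow_GS h, m.Gu, map_zero, map_zero, map_zero, add_zero] at h3
    intro j
    induction j with
    | zero => exact ⟨by simpa using h1, step 0 (by simpa using h1)⟩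
    | succ j ih =>
      have h3 : (S ^ (j + 1)) u ∈ M := by
        have h4 := hT _ ih.2
        rw [Top_apply, h.FD, m.pow_FS h, h.FF, map_zero, map_zero, map_zero, zero_add, h.GD,
          m.pow_GS h, m.GFu h, h.SD, h.DD] at h4
        rwa [pow_succ', mul_apply_eq_comp]
      exact ⟨h3, step _ h3⟩
  refine m.dense M hM (fun j => (h2 j).1) fun j => ?_
  induction j with
  | zero =>
    have h3 : S k ∈ M := by
      have h4 := m.rel k
      rw [hk0] at h4
      have h5 : S k = D (F u) + (s : ℂ) • k := by rw [h4, sub_add_cancel]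
      rw [h5]
      exact M.add_mem (by simpa using (h2 0).2) (M.smul_mem _ hk)
    change F u ∈ M
    rw [← hk0]
    exact M.sub_mem hk (M.smul_mem _ h3)
  | succ j ih =>
    have h3 := m.rel ((S ^ j) (F u))
    rw [map_sub, map_smul] at h3
    have h4 : S ((S ^ j) (F u)) = D ((S ^ j) (F u)) - (s : ℂ) • D ((S ^ (j + 1)) (F u)) +
        (s : ℂ) • (S ^ j) (F u) := by
      rw [pow_succ' S j, mul_apply_eq_comp, h3, sub_add_cancel]
    rw [pow_succ', mul_apply_eq_comp, h4]
    exact M.add_mem (M.sub_mem (h2 j).2 (M.smul_mem _ (h2 (j + 1)).2)) (M.smul_mem _ ih)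

theorem irreducible : IsIrreducible (Top S D F) := by
  intro M hM hT hT'
  obtain ⟨k, hk0, hk1, hk2, hk4, hk3⟩ := m.exists_k h
  have hkT : (Top S D F).adjoint k = 0 := by
    rw [Top_adj, h.Gd, hk4, h.Fs, h.FD, hk1, map_zero, map_zero, add_zero]
  have : CompleteSpace M := hM.completeSpace_coe
  obtain ⟨a, ha, b, hb, hab⟩ := M.exists_add_mem_mem_orthogonal k
  have hbT : (Top S D F).adjoint b ∈ Mᗮ := by
    rw [Submodule.mem_orthogonal]
    intro x hx
    rw [ContinuousLinearMap.adjoint_inner_right]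
    exact (Submodule.mem_orthogonal _ _).1 hb _ (hT x hx)
  have hsum : (Top S D F).adjoint a + (Top S D F).adjoint b = 0 := by
    rw [← map_add, ← hab, hkT]
  obtain ⟨ha0, hb0⟩ := zero_of_add ((Submodule.mem_orthogonal _ _).1 hbT _ (hT' a ha)) hsum
  obtain ⟨c, hc⟩ := m.ker_adj h hk1 hk2 ha0
  by_cases hc0 : c = 0
  · -- `k` is orthogonal to `M`
    left
    rw [hc0, zero_smul] at hc
    rw [hc, zero_add] at hab
    have hM2 : Mᗮ = ⊤ := by
      refine m.top h hk0 hk1 hk3 M.isClosed_orthogonal (fun x hx => ?_) (hab ▸ hb)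
      rw [Submodule.mem_orthogonal]
      intro y hy
      rw [← ContinuousLinearMap.adjoint_inner_left]
      exact (Submodule.mem_orthogonal _ _).1 hx _ (hT' y hy)
    rw [Submodule.eq_bot_iff]
    intro x hx
    have h1 : x ∈ Mᗮ := hM2 ▸ Submodule.mem_top
    exact inner_self_eq_zero.1 ((Submodule.mem_orthogonal _ _).1 h1 x hx)
  · right
    refine m.top h hk0 hk1 hk3 hM hT ?_
    have h1 : k = c⁻¹ • a := by rw [hc, smul_smul, inv_mul_cancel₀ hc0, one_smul]
    rw [h1]
    exact M.smul_mem _ ha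

end Moe

end Pool.Agent.NH44.BT.Abs
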