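import Pool.Agent.NH44.BT.Con1
import Pool.Agent.NH44.BT.Irr

/-!
# The block Toeplitz operator with symbol `[[0, z conj b], [b, 0]]`
-/

set_option autoImplicit false
set_option linter.unusedSectionVars false

open MeasureTheory AddCircle
open scoped ComplexConjugate ENNReal InnerProductSpace

namespace Pool.Agent.NH44.BT

/-- `(x, y) ↦ (0, x)` -/
noncomputable def A21 : Cn 2 →L[ℂ] Cn 2 :=
  LinearMap.toContinuousLinearMap
    { toFun := fun x => WithLp.toLp 2 ![0, x 0]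
      map_add' := fun x y => by ext i; fin_cases i <;> simp
      map_smul' := fun c x => by ext i; fin_cases i <;> simp }

/-- `(x, y) ↦ (y, 0)` -/
noncomputable def A12 : Cn 2 →L[ℂ] Cn 2 :=
  LinearMap.toContinuousLinearMap
    { toFun := fun x => WithLp.toLp 2 ![x 1, 0]
      map_add' := fun x y => by ext i; fin_cases i <;> simp
      map_smul' := fun c x => by ext i; fin_cases i <;> simp }

theorem A21_apply (x : Cn 2) : A21 x = WithLp.toLp 2 ![0, x 0] := rfl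

theorem A12_apply (x : Cn 2) : A12 x = WithLp.toLp 2 ![x 1, 0] := rfl

theorem inner_A (x y : Cn 2) : ⟪A21 x, y⟫_ℂ = ⟪x, A12 y⟫_ℂ := by
  rw [A21_apply, A12_apply, PiLp.inner_apply, PiLp.inner_apply, Fin.sum_univ_two,
    Fin.sum_univ_two]
  simp

theorem inner_A' (x y : Cn 2) : ⟪A12 x, y⟫_ℂ = ⟪x, A21 y⟫_ℂ := by
  rw [A21_apply, A12_apply, PiLp.inner_apply, PiLp.inner_apply, Fin.sum_univ_two,
    Fin.sum_univ_two]
  simp

/-- `b` is (the boundary function of) an inner function: it is measurable and unimodular, and its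
Fourier coefficients of negative index vanish. -/
structure IsInner (b : Ci → ℂ) : Prop where
  meas : AEStronglyMeasurable b mu
  one : ∀ t, ‖b t‖ = 1
  coeff : ∀ k : ℤ, k < 0 → fourierCoeff b k = 0

theorem IsInner.memLp {b : Ci → ℂ} (h : IsInner b) : MemLp b ∞ mu :=
  memLp_top_of_bound h.meas 1 (Filter.Eventually.of_forall fun t => (h.one t).le)

theorem mul_inner_mem {n : ℕ} {b : Ci → ℂ} (h : IsInner b) :
    ∀ f ∈ H2 n, mulL b h.memLp f ∈ H2 n := by
  let M : Submodule ℂ (H2 n) :=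
    (H2 n).comap ((mulL b h.memLp ∘L (H2 n).subtypeL : H2 n →L[ℂ] L2 n) : H2 n →ₗ[ℂ] L2 n)
  have hM : M = ⊤ := by
    refine dense_all M ?_ fun j w => ?_
    · exact (isClosed_H2 n).preimage
        (mulL b h.memLp ∘L (H2 n).subtypeL : H2 n →L[ℂ] L2 n).continuous
    · change mulL b h.memLp (((Sh n) ^ j) (cH w) : L2 n) ∈ H2 n
      intro k hk
      have h1 : ∀ᵐ t ∂mu, mulL b h.memLp (((Sh n) ^ j) (cH w) : L2 n) t =
          (b t * fourier (j : ℤ) t : ℂ) • w := by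
        filter_upwards [mulL_ae b h.memLp (((Sh n) ^ j) (cH w) : L2 n), pow_ae w j] with t h2 h3
        rw [h2, h3, smul_smul]
      rw [fourierCoeff_ae h1 k]
      unfold fourierCoeff
      simp only [smul_smul]
      rw [integral_smul_const]
      have h2 : ∫ t, (fourier (-k) t * (b t * fourier (j : ℤ) t) : ℂ) ∂mu =
          fourierCoeff b (k - j) := by
        unfold fourierCoeff
        refine integral_congr_ae (Filter.Eventually.of_forall fun t => ?_)
        simp only [smul_eq_mul]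
        have h3 : (fourier (-(k - (j : ℤ))) t : ℂ) = fourier (-k) t * fourier (j : ℤ) t := by
          rw [← fourier_add]
          congr 1
          ring_nf
        rw [h3]
        ring
      rw [h2, h.coeff _ (by omega), zero_smul]
  intro f hf
  have h2 : (⟨f, hf⟩ : H2 n) ∈ M := hM ▸ Submodule.mem_top
  exact h2

/-- multiplication by the inner function on the Hardy space -/
noncomputable def Db {b : Ci → ℂ} (h : IsInner b) : H2 2 →L[ℂ] H2 2 :=
  restr (mulL b h.memLp) (mul_inner_mem h)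

noncomputable def Fo : H2 2 →L[ℂ] H2 2 := restr (cm A21) (cm_mem A21)

noncomputable def Go : H2 2 →L[ℂ] H2 2 := restr (cm A12) (cm_mem A12)

theorem Fo_adj (x : H2 2) : Fo.adjoint x = Go x := by
  refine ext_inner_left ℂ fun y => ?_
  rw [ContinuousLinearMap.adjoint_inner_right]
  exact inner_cm inner_A _ _

theorem comm_cm {n : ℕ} (A : Cn n →L[ℂ] Cn n) {φ : Ci → ℂ} (hφ : MemLp φ ∞ mu) (f : L2 n) :
    cm A (mulL φ hφ f) = mulL φ hφ (cm A f) := by
  refine Lp.ext ?_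
  filter_upwards [cm_ae A (mulL φ hφ f), mulL_ae φ hφ f, mulL_ae φ hφ (cm A f), cm_ae A f]
    with t h1 h2 h3 h4
  rw [h1, h2, h3, h4, map_smul]

theorem comm_mul {n : ℕ} {φ ψ : Ci → ℂ} (hφ : MemLp φ ∞ mu) (hψ : MemLp ψ ∞ mu) (f : L2 n) :
    mulL ψ hψ (mulL φ hφ f) = mulL φ hφ (mulL ψ hψ f) := by
  refine Lp.ext ?_
  filter_upwards [mulL_ae ψ hψ (mulL φ hφ f), mulL_ae φ hφ f, mulL_ae φ hφ (mulL ψ hψ f),
    mulL_ae ψ hψ f] with t h1 h2 h3 h4
  rw [h1, h2, h3, h4, smul_comm]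

theorem cm_cm {n : ℕ} (A B : Cn n →L[ℂ] Cn n) (f : L2 n) : cm A (cm B f) = cm (A ∘L B) f := by
  refine Lp.ext ?_
  filter_upwards [cm_ae A (cm B f), cm_ae B f, cm_ae (A ∘L B) f] with t h1 h2 h3
  rw [h1, h2, h3]
  rfl

theorem A_FF (f : L2 2) : cm A21 (cm A21 f) = 0 := by
  refine Lp.ext ?_
  filter_upwards [cm_ae A21 (cm A21 f), cm_ae A21 f, Lp.coeFn_zero (Cn 2) 2 mu] with t h1 h2 h3
  rw [h1, h2, h3]
  ext i
  fin_cases i <;> simp [A21_apply]

theorem A_GG (f : L2 2) : cm A12 (cm A12 f) = 0 := by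
  refine Lp.ext ?_
  filter_upwards [cm_ae A12 (cm A12 f), cm_ae A12 f, Lp.coeFn_zero (Cn 2) 2 mu] with t h1 h2 h3
  rw [h1, h2, h3]
  ext i
  fin_cases i <;> simp [A12_apply]

theorem A_one (f : L2 2) : cm A21 (cm A12 f) + cm A12 (cm A21 f) = f := by
  refine Lp.ext ?_
  filter_upwards [cm_ae A21 (cm A12 f), cm_ae A12 f, cm_ae A12 (cm A21 f), cm_ae A21 f,
    Lp.coeFn_add (cm A21 (cm A12 f)) (cm A12 (cm A21 f))] with t h1 h2 h3 h4 h5
  rw [h5, Pi.add_apply, h1, h2, h3, h4]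
  ext i
  fin_cases i <;> simp [A12_apply, A21_apply]

theorem Db_DD {b : Ci → ℂ} (h : IsInner b) (x : H2 2) : (Db h).adjoint (Db h x) = x := by
  refine ext_inner_left ℂ fun y => ?_
  rw [ContinuousLinearMap.adjoint_inner_right]
  exact inner_mul_mul h.memLp h.one _ _

theorem dat {b : Ci → ℂ} (h : IsInner b) : Abs.Dat (Sh 2) (Db h) Fo where
  SS := Sh_SS
  DD := Db_DD h
  SD x := Subtype.ext (comm_mul h.memLp memZ (x : L2 2))
  FF x := Subtype.ext (A_FF (x : L2 2))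
  one x := by
    rw [Fo_adj, Fo_adj]
    exact Subtype.ext (A_one (x : L2 2))
  FS x := Subtype.ext (comm_cm A21 memZ (x : L2 2))
  FD x := Subtype.ext (comm_cm A21 h.memLp (x : L2 2))
  GS x := by
    rw [Fo_adj, Fo_adj]
    exact Subtype.ext (comm_cm A12 memZ (x : L2 2))
  GD x := by
    rw [Fo_adj, Fo_adj]
    exact Subtype.ext (comm_cm A12 h.memLp (x : L2 2))

/-- The symbol. -/
noncomputable def Phi (b : Ci → ℂ) (t : Ci) : Matrix (Fin 2) (Fin 2) ℂ :=
  !![0, zc t * conj (b t); b t, 0]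

/-- The block Toeplitz operator. -/
noncomputable def Tb {b : Ci → ℂ} (h : IsInner b) : H2 2 →L[ℂ] H2 2 := Abs.Top (Sh 2) (Db h) Fo

theorem toeplitz {b : Ci → ℂ} (h : IsInner b) : IsToeplitz (Phi b) (Tb h) := by
  intro f
  let g : L2 2 := mulL b h.memLp (cm A21 (f : L2 2)) +
    mulL _ (memLp_conj h.memLp) (mulL zc memZ (cm A12 (f : L2 2)))
  refine ⟨g, ?_, ?_⟩
  · filter_upwards [Lp.coeFn_add (mulL b h.memLp (cm A21 (f : L2 2)))
      (mulL _ (memLp_conj h.memLp) (mulL zc memZ (cm A12 (f : L2 2)))),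
      mulL_ae b h.memLp (cm A21 (f : L2 2)), cm_ae A21 (f : L2 2),
      mulL_ae _ (memLp_conj h.memLp) (mulL zc memZ (cm A12 (f : L2 2))),
      mulL_ae zc memZ (cm A12 (f : L2 2)), cm_ae A12 (f : L2 2)] with t h1 h2 h3 h4 h5 h6
    change (mulL b h.memLp (cm A21 (f : L2 2)) +
      mulL _ (memLp_conj h.memLp) (mulL zc memZ (cm A12 (f : L2 2))) : L2 2) t = _
    rw [h1, Pi.add_apply, h2, h3, h4, h5, h6]
    ext i
    fin_cases i
    · simp [A12_apply, A21_apply, Phi, Matrix.mulVec, dotProduct, Fin.sum_univ_two]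
      ring
    · simp [A12_apply, A21_apply, Phi, Matrix.mulVec, dotProduct, Fin.sum_univ_two]
  · refine Subtype.ext ?_
    refine (Submodule.eq_starProjection_of_mem_of_inner_eq_zero (Tb h f).2 ?_).symm
    intro w hw
    rw [inner_sub_left, sub_eq_zero]
    have e1 : ⟪((Tb h f : H2 2) : L2 2), w⟫_ℂ = ⟪Tb h f, (⟨w, hw⟩ : H2 2)⟫_ℂ := rfl
    have e2 : ⟪Tb h f, (⟨w, hw⟩ : H2 2)⟫_ℂ = ⟪Db h (Fo f), (⟨w, hw⟩ : H2 2)⟫_ℂ +
        ⟪Sh 2 (Go f), Db h (⟨w, hw⟩ : H2 2)⟫_ℂ := by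
      change ⟪Abs.Top (Sh 2) (Db h) Fo f, (⟨w, hw⟩ : H2 2)⟫_ℂ = _
      rw [Abs.Top_apply, inner_add_left, ContinuousLinearMap.adjoint_inner_left, Fo_adj]
    rw [e1, e2]
    change ⟪mulL b h.memLp (cm A21 (f : L2 2)) +
      mulL _ (memLp_conj h.memLp) (mulL zc memZ (cm A12 (f : L2 2))), w⟫_ℂ =
      ⟪mulL b h.memLp (cm A21 (f : L2 2)), w⟫_ℂ + ⟪mulL zc memZ (cm A12 (f : L2 2)),
        mulL b h.memLp w⟫_ℂ
    rw [inner_add_left]
    congr 1
    rw [← inner_conj_symm, ← inner_mul_left, inner_conj_symm]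

/-! ### subnormality -/

/-- the unitary extension -/
noncomputable def Uo : L2 2 →L[ℂ] L2 2 := mulL zc memZ ∘L cm A12 + cm A21

theorem Uo_apply (x : L2 2) : Uo x = mulL zc memZ (cm A12 x) + cm A21 x := rfl

theorem mulZ_conj (x : L2 2) : mulL _ (memLp_conj memZ) (mulL zc memZ x) = x := by
  refine Lp.ext ?_
  filter_upwards [mulL_ae _ (memLp_conj memZ) (mulL zc memZ x), mulL_ae zc memZ x] with t h1 h2
  rw [h1, h2, smul_smul, Complex.conj_mul', zc_norm]
  simp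

theorem Uo_adj (x : L2 2) : Uo.adjoint x = cm A21 (mulL _ (memLp_conj memZ) x) + cm A12 x := by
  refine ext_inner_left ℂ fun y => ?_
  rw [ContinuousLinearMap.adjoint_inner_right, Uo_apply, inner_add_left, inner_add_right,
    inner_mul_left, inner_cm inner_A', inner_cm inner_A]

theorem Uo1 (x : L2 2) : Uo.adjoint (Uo x) = x := by
  rw [Uo_adj, Uo_apply, map_add, map_add, map_add, mulZ_conj, comm_cm, A_FF, map_zero, add_zero,
    comm_cm, A_GG, map_zero, zero_add]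
  exact A_one x

theorem Uo2 (x : L2 2) : Uo (Uo.adjoint x) = x := by
  rw [Uo_adj, Uo_apply, map_add, map_add, map_add, comm_cm, comm_cm, A_GG, map_zero, add_zero,
    comm_cm, A_FF, map_zero, zero_add, comm_mul, mulZ_conj]
  rw [add_comm]
  exact A_one x

theorem subnormal {b : Ci → ℂ} (h : IsInner b) : IsSubnormal (Tb h) := by
  refine Abs.subnormal (dat h) (H2 2).subtypeₗᵢ Uo Uo1 Uo2 fun x => ?_
  rw [Fo_adj]
  rfl

/-! ### normality -/

/-- the constant function `(1, 0)` -/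
noncomputable def uo : H2 2 := cH (WithLp.toLp 2 ![1, 0])

theorem uo_ne : uo ≠ 0 := by
  intro h
  have h1 := fourierCoeff_cst (n := 2) (WithLp.toLp 2 ![1, 0]) 0
  have h2 : cst (n := 2) (WithLp.toLp 2 ![1, 0]) = 0 := congrArg Subtype.val h
  rw [h2, fourierCoeff_zero', if_pos rfl] at h1
  have h3 := congrArg (fun v : Cn 2 => v 0) h1
  simp at h3

theorem Guo : Fo.adjoint uo = 0 := by
  rw [Fo_adj]
  refine Subtype.ext ?_
  change cm A12 (cst _) = 0
  rw [cm_cst, A12_apply]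
  refine zero_of_coeff _ fun k => ?_
  rw [fourierCoeff_cst]
  split_ifs
  · ext i
    fin_cases i <;> simp
  · rfl

theorem Fuo : Fo uo = cH (WithLp.toLp 2 ![0, 1]) := by
  refine Subtype.ext ?_
  change cm A21 (cst _) = cst _
  rw [cm_cst, A21_apply]
  rfl

theorem span_uo (x : H2 2) (hx : (Sh 2).adjoint x = 0) :
    ∃ a b : ℂ, x = a • uo + b • Fo uo := by
  have h1 := ker_Sh x hx
  set w := fourierCoeff (⇑(x : L2 2)) 0 with hw
  refine ⟨w 0, w 1, ?_⟩
  rw [h1, Fuo]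
  refine Subtype.ext (Lp.ext ?_)
  change ∀ᵐ t ∂mu, cst w t = (w 0 • cst (WithLp.toLp 2 ![1, 0]) +
    w 1 • cst (WithLp.toLp 2 ![0, 1]) : L2 2) t
  filter_upwards [cst_ae w, Lp.coeFn_add (w 0 • cst (n := 2) (WithLp.toLp 2 ![1, 0]))
    (w 1 • cst (n := 2) (WithLp.toLp 2 ![0, 1])),
    Lp.coeFn_smul (w 0) (cst (n := 2) (WithLp.toLp 2 ![1, 0])),
    Lp.coeFn_smul (w 1) (cst (n := 2) (WithLp.toLp 2 ![0, 1])),
    cst_ae (n := 2) (WithLp.toLp 2 ![1, 0]), cst_ae (n := 2) (WithLp.toLp 2 ![0, 1])]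
    with t h2 h3 h4 h5 h6 h7
  rw [h2, h3, Pi.add_apply, h4, h5, Pi.smul_apply, Pi.smul_apply, h6, h7]
  ext i
  fin_cases i <;> simp

theorem cH_eq (w : Cn 2) : cH w = w 0 • uo + w 1 • Fo uo := by
  obtain ⟨a, b, hab⟩ := span_uo (cH w) (Sh_cst w)
  have h1 : cst w = a • cst (WithLp.toLp 2 ![1, 0]) + b • cst (WithLp.toLp 2 ![0, 1]) := by
    rw [Fuo] at hab
    exact congrArg Subtype.val hab
  have h2 := congrArg (coeffL 2 0) h1
  rw [map_add, map_smul, map_smul, coeffL_apply, coeffL_apply, coeffL_apply, fourierCoeff_cst,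
    fourierCoeff_cst, fourierCoeff_cst, if_pos rfl, if_pos rfl, if_pos rfl] at h2
  have h3 := congrArg (fun v : Cn 2 => v 0) h2
  have h4 := congrArg (fun v : Cn 2 => v 1) h2
  simp at h3 h4
  rw [hab, h3, h4]

theorem dense_uo (M : Submodule ℂ (H2 2)) (hM : IsClosed (M : Set (H2 2)))
    (h1 : ∀ k : ℕ, ((Sh 2) ^ k) uo ∈ M) (h2 : ∀ k : ℕ, ((Sh 2) ^ k) (Fo uo) ∈ M) : M = ⊤ := by
  refine dense_all M hM fun k w => ?_
  rw [cH_eq, map_add, map_smul, map_smul]
  exact M.add_mem (M.smul_mem _ (h1 k)) (M.smul_mem _ (h2 k))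

theorem not_normal {b : Ci → ℂ} (h : IsInner b) : ¬ IsNormalOp (Tb h) := by
  refine Abs.not_normal (dat h) uo uo_ne (Sh_cst _) Guo fun y hy hk => ?_
  refine Subtype.ext (zero_of_coeff _ fun k => ?_)
  rcases lt_or_ge k 0 with hk0 | hk0
  · exact y.2 k hk0
  · obtain ⟨j, rfl⟩ := Int.eq_ofNat_of_zero_le hk0
    have h1 := hk j
    unfold uo at h1
    rw [inner_pow] at h1
    have h2 : A12 (fourierCoeff (⇑(y : L2 2)) (j : ℤ)) = 0 := by
      rw [← fourierCoeff_cm]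
      rw [Fo_adj] at hy
      have h3 : cm A12 (y : L2 2) = 0 := congrArg Subtype.val hy
      rw [h3, fourierCoeff_zero']
    rw [A12_apply] at h2
    have h3 := congrArg (fun v : Cn 2 => v 0) h2
    rw [PiLp.inner_apply, Fin.sum_univ_two] at h1
    simp at h1 h3
    change fourierCoeff (⇑(y : L2 2)) (j : ℤ) = 0
    ext i
    fin_cases i
    · simpa using h1
    · simpa using h3

end Pool.Agent.NH44.BT
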