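import Pool.Agent.NH44.BT.Base

/-!
# Block Toeplitz operators on the vector valued Hardy space of the circle

The circle is `AddCircle 1`, with the normalised Haar measure; the coordinate is
`z t = exp (2 π i t)`.
-/

set_option autoImplicit false

open MeasureTheory AddCircle
open scoped ComplexConjugate ENNReal

namespace Pool.Agent.NH44.BT

/-- The space `L^2` of the circle with values in `ℂ ^ n`. -/
abbrev L2 (n : ℕ) : Type := Lp (Cn n) 2 mu

theorem fourierCoeff_add' {n : ℕ} (f g : L2 n) (k : ℤ) :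
    fourierCoeff (⇑(f + g)) k = fourierCoeff (⇑f) k + fourierCoeff (⇑g) k := by
  have h : fourierCoeff (⇑(f + g)) k = fourierCoeff (⇑f + ⇑g) k := by
    unfold fourierCoeff
    refine integral_congr_ae ?_
    filter_upwards [Lp.coeFn_add f g] with t ht
    rw [ht]
  rw [h, fourierCoeff.add ((Lp.memLp f).integrable (by norm_num))
    ((Lp.memLp g).integrable (by norm_num))]
  rfl

theorem fourierCoeff_smul' {n : ℕ} (c : ℂ) (f : L2 n) (k : ℤ) :
    fourierCoeff (⇑(c • f)) k = c • fourierCoeff (⇑f) k := by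
  have h : fourierCoeff (⇑(c • f)) k = fourierCoeff (c • ⇑f) k := by
    unfold fourierCoeff
    refine integral_congr_ae ?_
    filter_upwards [Lp.coeFn_smul c f] with t ht
    rw [ht]
  rw [h, fourierCoeff.const_smul]

theorem fourierCoeff_zero' {n : ℕ} (k : ℤ) : fourierCoeff (⇑(0 : L2 n)) k = 0 := by
  have h := fourierCoeff_smul' (n := n) 0 0 k
  rwa [zero_smul, zero_smul] at h

/-- The Hardy space `H^2` with values in `ℂ ^ n`: the functions in `L^2` whose Fourier coefficients
of negative index vanish. -/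
noncomputable def H2 (n : ℕ) : Submodule ℂ (L2 n) where
  carrier := {f | ∀ k : ℤ, k < 0 → fourierCoeff (⇑f) k = 0}
  add_mem' {f g} hf hg k hk := by rw [fourierCoeff_add', hf k hk, hg k hk, add_zero]
  zero_mem' k _ := fourierCoeff_zero' k
  smul_mem' c f hf k hk := by rw [fourierCoeff_smul', hf k hk, smul_zero]

theorem norm_fourierCoeff_le {n : ℕ} (f : L2 n) (k : ℤ) : ‖fourierCoeff (⇑f) k‖ ≤ ‖f‖ := by
  have h1 : ‖fourierCoeff (⇑f) k‖ ≤ ∫ t, ‖f t‖ ∂mu := by
    unfold fourierCoeff
    refine (norm_integral_le_integral_norm _).trans (le_of_eq ?_)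
    refine integral_congr_ae (Filter.Eventually.of_forall fun t => ?_)
    simp only [norm_smul, fourier_apply, Circle.norm_coe, one_mul]
  refine h1.trans ?_
  have h2 : MemLp (⇑f) 2 mu := Lp.memLp f
  have h3 : ∫ t, ‖f t‖ ∂mu = (eLpNorm (⇑f) 1 mu).toReal := by
    rw [eLpNorm_one_eq_lintegral_enorm, ← integral_norm_eq_lintegral_enorm h2.1]
  rw [h3, Lp.norm_def]
  exact ENNReal.toReal_mono h2.2.ne (eLpNorm_le_eLpNorm_of_exponent_le (by norm_num) h2.1)

/-- The Fourier coefficient as a continuous linear map. -/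
noncomputable def coeffL (n : ℕ) (k : ℤ) : L2 n →L[ℂ] Cn n :=
  LinearMap.mkContinuous
    { toFun := fun f => fourierCoeff (⇑f) k
      map_add' := fun f g => fourierCoeff_add' f g k
      map_smul' := fun c f => fourierCoeff_smul' c f k } 1
    (fun f => by simpa using norm_fourierCoeff_le f k)

theorem coeffL_apply {n : ℕ} (k : ℤ) (f : L2 n) : coeffL n k f = fourierCoeff (⇑f) k := rfl

theorem isClosed_H2 (n : ℕ) : IsClosed (H2 n : Set (L2 n)) := by
  have h : (H2 n : Set (L2 n)) = ⋂ k : ℤ, ⋂ _ : k < 0, (coeffL n k) ⁻¹' {0} := by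
    ext f
    simp only [Set.mem_iInter, Set.mem_preimage, Set.mem_singleton_iff, coeffL_apply]
    rfl
  rw [h]
  exact isClosed_iInter fun k => isClosed_iInter fun _ =>
    isClosed_singleton.preimage (coeffL n k).continuous

instance (n : ℕ) : CompleteSpace (H2 n) := (isClosed_H2 n).completeSpace_coe

/-- `Φ` is the symbol of the block Toeplitz operator `T` on `H^2`: for every `f` in `H^2`, the
function `Φ f` is in `L^2` and `T f` is the orthogonal projection of `Φ f` on `H^2`. -/
def IsToeplitz {n : ℕ} (Φ : Ci → Matrix (Fin n) (Fin n) ℂ) (T : H2 n →L[ℂ] H2 n) : Prop :=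
  ∀ f : H2 n, ∃ h : L2 n, (∀ᵐ t ∂mu, h t = WithLp.toLp 2 ((Φ t).mulVec (WithLp.ofLp ((f : L2 n) t)))) ∧
    T f = (H2 n).orthogonalProjectionOnto h

/-- A bounded operator on a Hilbert space is normal. -/
def IsNormalOp {H : Type} [NormedAddCommGroup H] [InnerProductSpace ℂ H] [CompleteSpace H]
    (T : H →L[ℂ] H) : Prop :=
  ∀ x, T.adjoint (T x) = T (T.adjoint x)

/-- A bounded operator is subnormal: up to an isometric embedding of the Hilbert space in a larger
one, it is the restriction of a normal operator to an invariant subspace. -/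
def IsSubnormal {H : Type} [NormedAddCommGroup H] [InnerProductSpace ℂ H] [CompleteSpace H]
    (T : H →L[ℂ] H) : Prop :=
  ∃ (K : Type) (_ : NormedAddCommGroup K) (_ : InnerProductSpace ℂ K) (_ : CompleteSpace K)
    (V : H →ₗᵢ[ℂ] K) (N : K →L[ℂ] K), IsNormalOp N ∧ ∀ x, N (V x) = V (T x)

/-- The operator `T` has no reducing subspaces besides zero and the whole space. -/
def IsIrreducible {H : Type} [NormedAddCommGroup H] [InnerProductSpace ℂ H] [CompleteSpace H]
    (T : H →L[ℂ] H) : Prop :=
  ∀ M : Submodule ℂ H, IsClosed (M : Set H) → (∀ x ∈ M, T x ∈ M) → (∀ x ∈ M, T.adjoint x ∈ M) →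
    M = ⊥ ∨ M = ⊤

end Pool.Agent.NH44.BT
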