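import Pool.Agent.NH44.BT.Con2

/-!
# The Moebius functions `(z - s) / (1 - s z)`
-/

set_option autoImplicit false
set_option linter.unusedSectionVars false

open MeasureTheory AddCircle
open scoped ComplexConjugate ENNReal InnerProductSpace

namespace Pool.Agent.NH44.BT

/-- The Blaschke factor `(z - s) / (1 - s z)`. -/
noncomputable def mob (s : ℝ) (t : Ci) : ℂ := (zc t - s) / (1 - s * zc t)

variable {s : ℝ}

theorem den_ne (h0 : 0 < s) (h1 : s < 1) (t : Ci) : (1 : ℂ) - s * zc t ≠ 0 := by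
  intro h
  have h2 : (1 : ℂ) = s * zc t := sub_eq_zero.1 h
  have h3 := congrArg norm h2
  rw [norm_mul, zc_norm, norm_one, Complex.norm_real, Real.norm_of_nonneg h0.le] at h3
  linarith

theorem mob_cont (h0 : 0 < s) (h1 : s < 1) : Continuous (mob s) :=
  (zc_cont.sub continuous_const).div (continuous_const.sub (continuous_const.mul zc_cont))
    (den_ne h0 h1)

theorem mob_mul (h0 : 0 < s) (h1 : s < 1) (t : Ci) : mob s t * (1 - s * zc t) = zc t - s := by
  unfold mob
  rw [div_mul_cancel₀ _ (den_ne h0 h1 t)]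

theorem zz (t : Ci) : zc t * conj (zc t) = 1 := by
  rw [Complex.mul_conj', zc_norm]
  simp

theorem mob_norm (h0 : 0 < s) (h1 : s < 1) (t : Ci) : ‖mob s t‖ = 1 := by
  unfold mob
  rw [norm_div, div_eq_one_iff_eq (norm_ne_zero_iff.2 (den_ne h0 h1 t))]
  have h2 : (1 : ℂ) - s * zc t = zc t * conj (zc t - s) := by
    rw [map_sub, mul_sub, zz, Complex.conj_ofReal]
    ring
  rw [h2, norm_mul, zc_norm, one_mul, RCLike.norm_conj]

theorem int_c {φ : Ci → ℂ} (h : Continuous φ) : Integrable φ mu :=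
  (memLp_of_cont h).integrable (by norm_num)

theorem mob_rec (h0 : 0 < s) (h1 : s < 1) (k : ℤ) :
    fourierCoeff (mob s) k = s * fourierCoeff (mob s) (k - 1) +
      ((if k = 1 then 1 else 0) - s * (if k = 0 then 1 else 0)) := by
  have c1 : Continuous (fun t : Ci => (fourier (-k) t : ℂ)) := map_continuous _
  have c2 : Continuous (fun t : Ci => (fourier (-(k - 1)) t : ℂ)) := map_continuous _
  have e1 : ∫ t, ((fourier (-k) t : ℂ) * mob s t - s * ((fourier (-(k - 1)) t : ℂ) * mob s t)) ∂mu =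
      ∫ t, ((fourier (-(k - 1)) t : ℂ) - s * (fourier (-k) t : ℂ)) ∂mu := by
    refine integral_congr_ae (Filter.Eventually.of_forall fun t => ?_)
    have h2 := mob_mul h0 h1 t
    have h3 := fourier_zc k t
    simp only
    rw [← h3]
    linear_combination (fourier (-k) t : ℂ) * h2
  have i1 : Integrable (fun t : Ci => (fourier (-k) t : ℂ) * mob s t) mu :=
    int_c (c1.mul (mob_cont h0 h1))
  have i2 : Integrable (fun t : Ci => (s : ℂ) * ((fourier (-(k - 1)) t : ℂ) * mob s t)) mu :=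
    int_c (continuous_const.mul (c2.mul (mob_cont h0 h1)))
  have i3 : Integrable (fun t : Ci => (fourier (-(k - 1)) t : ℂ)) mu := int_c c2
  have i4 : Integrable (fun t : Ci => (s : ℂ) * (fourier (-k) t : ℂ)) mu :=
    int_c (continuous_const.mul c1)
  rw [integral_sub i1 i2, integral_sub i3 i4, integral_const_mul,
    integral_const_mul, integral_fourier, integral_fourier] at e1
  have e2 : fourierCoeff (mob s) k = ∫ t, (fourier (-k) t : ℂ) * mob s t ∂mu := rfl
  have e3 : fourierCoeff (mob s) (k - 1) = ∫ t, (fourier (-(k - 1)) t : ℂ) * mob s t ∂mu := rfl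
  rw [← e2, ← e3] at e1
  have e4 : (if -(k - 1) = 0 then (1 : ℂ) else 0) = if k = 1 then 1 else 0 := by
    by_cases hk : k = 1
    · rw [if_pos (by omega), if_pos hk]
    · rw [if_neg (by omega), if_neg hk]
  have e5 : (if -k = 0 then (1 : ℂ) else 0) = if k = 0 then 1 else 0 := by
    by_cases hk : k = 0
    · rw [if_pos (by omega), if_pos hk]
    · rw [if_neg (by omega), if_neg hk]
  rw [e4, e5] at e1
  linear_combination e1

theorem mob_bound (h0 : 0 < s) (h1 : s < 1) (k : ℤ) : ‖fourierCoeff (mob s) k‖ ≤ 1 := by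
  unfold fourierCoeff
  refine (norm_integral_le_integral_norm _).trans (le_of_eq ?_)
  have h2 : ∀ t : Ci, ‖(fourier (-k) t : ℂ) • mob s t‖ = 1 := by
    intro t
    rw [norm_smul, mob_norm h0 h1, fourier_apply, Circle.norm_coe, one_mul]
  simp only [h2]
  simp

theorem mob_neg (h0 : 0 < s) (h1 : s < 1) (k : ℤ) (hk : k < 0) : fourierCoeff (mob s) k = 0 := by
  have h2 : ∀ m : ℕ, ∀ k : ℤ, k < 0 → ‖fourierCoeff (mob s) k‖ ≤ s ^ m := by
    intro m
    induction m with
    | zero => intro k _; simpa using mob_bound h0 h1 k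
    | succ m ih =>
      intro k hk
      rw [mob_rec h0 h1 k, if_neg (by omega), if_neg (by omega), mul_zero, sub_zero, add_zero,
        norm_mul, Complex.norm_real, Real.norm_of_nonneg h0.le, pow_succ']
      exact mul_le_mul_of_nonneg_left (ih _ (by omega)) h0.le
  have h3 : ‖fourierCoeff (mob s) k‖ ≤ 0 :=
    ge_of_tendsto' (tendsto_pow_atTop_nhds_zero_of_lt_one h0.le h1) fun m => h2 m k hk
  exact norm_eq_zero.1 (le_antisymm h3 (norm_nonneg _))

theorem mob_two (h0 : 0 < s) (h1 : s < 1) : fourierCoeff (mob s) 2 = s * (1 - s * s) := by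
  have e2 := mob_rec h0 h1 2
  have e1 := mob_rec h0 h1 1
  have e0 := mob_rec h0 h1 0
  rw [show (2 : ℤ) - 1 = 1 by norm_num] at e2
  rw [show (1 : ℤ) - 1 = 0 by norm_num] at e1
  rw [mob_neg h0 h1 (0 - 1) (by norm_num)] at e0
  norm_num at e0 e1 e2
  rw [e2, e1, e0]
  ring

theorem mob_inner (h0 : 0 < s) (h1 : s < 1) : IsInner (mob s) where
  meas := (mob_cont h0 h1).aestronglyMeasurable
  one := mob_norm h0 h1
  coeff := mob_neg h0 h1

theorem moe (h0 : 0 < s) (h1 : s < 1) :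
    Abs.Moe (Sh 2) (Db (mob_inner h0 h1)) Fo s uo where
  s0 := h0
  s1 := h1
  rel x := by
    refine Subtype.ext (Lp.ext ?_)
    change ∀ᵐ t ∂mu, mulL (mob s) (mob_inner h0 h1).memLp
      ((x : L2 2) - (s : ℂ) • mulL zc memZ (x : L2 2)) t =
      (mulL zc memZ (x : L2 2) - (s : ℂ) • (x : L2 2) : L2 2) t
    filter_upwards [mulL_ae (mob s) (mob_inner h0 h1).memLp
      ((x : L2 2) - (s : ℂ) • mulL zc memZ (x : L2 2)),
      Lp.coeFn_sub (x : L2 2) ((s : ℂ) • mulL zc memZ (x : L2 2)),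
      Lp.coeFn_smul (s : ℂ) (mulL zc memZ (x : L2 2)), mulL_ae zc memZ (x : L2 2),
      Lp.coeFn_sub (mulL zc memZ (x : L2 2)) ((s : ℂ) • (x : L2 2)),
      Lp.coeFn_smul (s : ℂ) (x : L2 2)] with t e1 e2 e3 e4 e5 e6
    rw [e1, e2, Pi.sub_apply, e3, Pi.smul_apply, e5, Pi.sub_apply, e6, Pi.smul_apply, e4,
      smul_smul, ← sub_smul, ← mob_mul h0 h1 t, smul_sub, smul_smul, ← sub_smul]
    congr 1
    ring
  surj y := by
    have h2 : ‖(s : ℂ) • Sh 2‖ < 1 := by
      refine lt_of_le_of_lt (ContinuousLinearMap.opNorm_le_bound _ h0.le fun x => ?_) h1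
      rw [smul_apply, norm_smul, Complex.norm_real,
        Real.norm_of_nonneg h0.le, (dat (mob_inner h0 h1)).nS]
    obtain ⟨u, hu⟩ : IsUnit (1 - (s : ℂ) • Sh 2 : H2 2 →L[ℂ] H2 2) :=
      isUnit_one_sub_of_norm_lt_one (R := H2 2 →L[ℂ] H2 2) (x := (s : ℂ) • Sh 2) h2
    refine ⟨(↑u⁻¹ : H2 2 →L[ℂ] H2 2) y, ?_⟩
    have h3 : (u : H2 2 →L[ℂ] H2 2) ((↑u⁻¹ : H2 2 →L[ℂ] H2 2) y) = y := by
      rw [← mul_apply_eq_comp, Units.mul_inv]
      rfl
    rw [hu] at h3
    exact h3
  hu := uo_ne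
  Su := Sh_cst _
  Gu := Guo
  ker := span_uo
  dense := dense_uo

theorem irreducible (h0 : 0 < s) (h1 : s < 1) : IsIrreducible (Tb (mob_inner h0 h1)) :=
  (moe h0 h1).irreducible (dat (mob_inner h0 h1))

/-! ### the symbol -/

theorem Phi_eq {b : Ci → ℂ} (t : Ci) : Phi b t = (zc t • (1 : Matrix (Fin 2) (Fin 2) ℂ)) *
    (Phi b t).conjTranspose := by
  have h := zz t
  unfold Phi
  ext i j
  fin_cases i <;> fin_cases j <;> simp [Matrix.smul_apply, Matrix.conjTranspose_apply]
  rw [← mul_assoc, h, one_mul]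

theorem blaschke : IsBlaschkePotapov (fun w : ℂ => w • (1 : Matrix (Fin 2) (Fin 2) ℂ)) := by
  refine ⟨1, Submonoid.one_mem _, [(0, 1)], ?_, fun w => ?_⟩
  · intro p hp
    rw [List.mem_singleton] at hp
    subst hp
    refine ⟨by simp, one_ne_zero, Matrix.isHermitian_one, by simp⟩
  · simp

theorem not_analytic {b : Ci → ℂ} {j : ℤ} (hj : 2 ≤ j) (hb : fourierCoeff b j ≠ 0) :
    ¬ IsAnalytic (Phi b) := by
  intro h
  have h1 := h 0 1 (1 - j) (by omega)
  have h2 : fourierCoeff (fun t => Phi b t 0 1) (1 - j) = conj (fourierCoeff b j) := by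
    unfold fourierCoeff
    rw [← integral_conj]
    refine integral_congr_ae (Filter.Eventually.of_forall fun t => ?_)
    have h3 : (fourier (-(1 - j)) t : ℂ) * zc t = conj (fourier (-j) t : ℂ) := by
      rw [← fourier_neg, neg_neg]
      unfold zc
      rw [← fourier_add]
      congr 1
      ring_nf
    change (fourier (-(1 - j)) t : ℂ) • (zc t * conj (b t)) = conj ((fourier (-j) t : ℂ) • b t)
    rw [smul_eq_mul, smul_eq_mul, ← mul_assoc, h3, map_mul]
  rw [h2, map_eq_zero] at h1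
  exact hb h1

end Pool.Agent.NH44.BT
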