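import Pool.Agent.NH44.BT.Mob

/-!
# Block Toeplitz operators: the definitions used in the statement
-/

set_option autoImplicit false

open MeasureTheory AddCircle
open scoped ComplexConjugate ENNReal

namespace Pool.Agent.NH44.BT

/-- The Hilbert space `L^2` of the circle with values in `ℂ ^ n`. -/
def LTwo (n : ℕ) : Type := Lp (Cn n) 2 mu

noncomputable instance ltwoGroup (n : ℕ) : NormedAddCommGroup (LTwo n) :=
  Lp.instNormedAddCommGroup

noncomputable instance ltwoInner (n : ℕ) : InnerProductSpace ℂ (LTwo n) :=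
  L2.innerProductSpace

instance ltwoComplete (n : ℕ) : CompleteSpace (LTwo n) :=
  (inferInstance : CompleteSpace (Lp (Cn n) 2 mu))

/-- An element of `L^2` as a function. -/
noncomputable def ev {n : ℕ} (f : LTwo n) : Ci → Cn n :=
  (show Lp (Cn n) 2 mu from f)

/-- The `k`-th Fourier coefficient. -/
noncomputable def coeff {n : ℕ} (f : LTwo n) (k : ℤ) : Cn n := fourierCoeff (ev f) k

theorem coeff_add {n : ℕ} {f g : LTwo n} (hf : ∀ k : ℤ, k < 0 → coeff f k = 0)
    (hg : ∀ k : ℤ, k < 0 → coeff g k = 0) (k : ℤ) (hk : k < 0) : coeff (f + g) k = 0 :=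
  (H2 n).add_mem' hf hg k hk

theorem coeff_zero {n : ℕ} (k : ℤ) (hk : k < 0) : coeff (0 : LTwo n) k = 0 :=
  (H2 n).zero_mem' k hk

theorem coeff_smul {n : ℕ} (c : ℂ) {f : LTwo n} (hf : ∀ k : ℤ, k < 0 → coeff f k = 0)
    (k : ℤ) (hk : k < 0) : coeff (c • f) k = 0 :=
  (H2 n).smul_mem' c hf k hk

/-- The Hardy space `H^2` with values in `ℂ ^ n`, as a subspace of `L^2`: the functions in `L^2`
whose Fourier coefficients of negative index vanish. -/
noncomputable def HardySub (n : ℕ) : Submodule ℂ (LTwo n) where
  carrier := {f | ∀ k : ℤ, k < 0 → coeff f k = 0}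
  add_mem' := coeff_add
  zero_mem' := coeff_zero
  smul_mem' := coeff_smul

/-- The Hardy space `H^2` with values in `ℂ ^ n`, as a type. -/
def Hardy (n : ℕ) : Type := HardySub n

noncomputable instance hardyGroup (n : ℕ) : NormedAddCommGroup (Hardy n) :=
  Submodule.normedAddCommGroup (HardySub n)

noncomputable instance hardyInner (n : ℕ) : InnerProductSpace ℂ (Hardy n) :=
  Submodule.innerProductSpace (HardySub n)

instance hardySubComplete (n : ℕ) : CompleteSpace (HardySub n) :=
  (inferInstance : CompleteSpace (H2 n))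

instance hardyComplete (n : ℕ) : CompleteSpace (Hardy n) :=
  (inferInstance : CompleteSpace (HardySub n))

/-- The inclusion of the Hardy space in `L^2`. -/
def incl {n : ℕ} (f : Hardy n) : LTwo n := Subtype.val f

/-- The orthogonal projection of `L^2` onto the Hardy space. -/
noncomputable def proj {n : ℕ} (h : LTwo n) : Hardy n := (HardySub n).orthogonalProjectionOnto h

/-- `h = Φ f` almost everywhere on the circle. -/
def IsProd {n : ℕ} (Φ : Ci → Matrix (Fin n) (Fin n) ℂ) (f h : LTwo n) : Prop :=
  ∀ᵐ t ∂mu, ev h t = WithLp.toLp 2 ((Φ t).mulVec (WithLp.ofLp (ev f t)))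

/-- The bounded linear operators on a complex inner product space. -/
abbrev Op (H : Type) [NormedAddCommGroup H] [InnerProductSpace ℂ H] : Type := H →L[ℂ] H

/-- `T` is the block Toeplitz operator with the symbol `Φ` on the Hardy space: for every `f`, the
function `Φ f` is in `L^2` and `T f` is its orthogonal projection on the Hardy space. -/
def IsToep {n : ℕ} (Φ : Ci → Matrix (Fin n) (Fin n) ℂ) (T : Op (Hardy n)) : Prop :=
  ∀ f : Hardy n, ∃ h : LTwo n, IsProd Φ (incl f) h ∧ T f = proj h

/-- The adjoint `T*`. -/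
noncomputable def adj {H : Type} [NormedAddCommGroup H] [InnerProductSpace ℂ H] [CompleteSpace H]
    (T : Op H) : Op H := star T

/-- A bounded operator `T` on a Hilbert space is normal: `T* T = T T*`. -/
def NormalOp {H : Type} [NormedAddCommGroup H] [InnerProductSpace ℂ H] [CompleteSpace H]
    (T : Op H) : Prop :=
  ∀ x, adj T (T x) = T (adj T x)

/-- A bounded operator is subnormal: up to an isometric embedding of the Hilbert space in a larger
one, it is the restriction of a normal operator to an invariant subspace. -/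
def SubnormalOp {H : Type} [NormedAddCommGroup H] [InnerProductSpace ℂ H] [CompleteSpace H]
    (T : Op H) : Prop :=
  ∃ (K : Type) (_ : NormedAddCommGroup K) (_ : InnerProductSpace ℂ K) (_ : CompleteSpace K)
    (V : H →ₗᵢ[ℂ] K) (N : Op K), NormalOp N ∧ ∀ x, N (V x) = V (T x)

/-- The subspace `M` is invariant under `T`. -/
def Inv {H : Type} [NormedAddCommGroup H] [InnerProductSpace ℂ H] (T : Op H)
    (M : Submodule ℂ H) : Prop := ∀ x ∈ M, T x ∈ M

/-- The operator `T` has no reducing subspaces besides zero and the whole space. -/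
def IrreducibleOp {H : Type} [NormedAddCommGroup H] [InnerProductSpace ℂ H] [CompleteSpace H]
    (T : Op H) : Prop :=
  ∀ M : Submodule ℂ H, IsClosed (M : Set H) → Inv T M → Inv (adj T) M → M = ⊥ ∨ M = ⊤

end Pool.Agent.NH44.BT
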